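import Pool.Agent.W887.CG.Shape

/-!
# MP_381749_lc: connected spanning subgraphs of cographs

Counting the connected spanning subgraphs of a cograph (a graph without an induced path on four
vertices), that is, evaluating the Tutte polynomial of a connected cograph at the point `(1, 2)`,
or its all-terminal reliability with edge probability one half, is `#P`-complete.

The classes `SharpP` and `FP`, Turing reductions and `SharpPHard` are defined in
`Pool/Agent/H527R2/SharpP.lean`, `PolyTime` (Mathlib Turing machines) and the bit code `bits` in
`Pool/Agent/NPC/Defs.lean`; `numConn` is in `Pool/Agent/W887/CG/Graph.lean`, adjacency matrices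
(`IsAdj`, `gr`) and `IsCograph` in `Pool/Agent/W887/CG/Matrix.lean`, `numConnCo` in
`Pool/Agent/W887/CG/Mem2.lean`, `IsMultiJoin` and `tutte` in `Pool/Agent/W887/CG/Shape.lean`.
-/

namespace Pool.Agent.Results.MP_381749_lc.CographConnected

open Pool.Agent.H549R2.Convex (F)
open Pool.Agent.NPC Pool.Agent.NPC.Cnt Pool.Agent.W887.CG Pool.Agent.NPC.CG887
open Pool.Agent.NPC.H549NRed (sharpP_le_of_nred)

/-- **Counting connected spanning subgraphs of cographs is `#P`-complete.**
(1) `#P ⊆ FP` iff some polynomial-time function computes, from the adjacency matrix of every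
cograph, its number of connected spanning subgraphs.
(2) `#P ⊆ FP` iff some polynomial-time function computes the value at `(1, 2)` of the Tutte
polynomial of every connected graph that is the join of a complete multipartite graph with a
disjoint union of complete graphs.
(3) The function with value the number of connected spanning subgraphs for cographs, and `0` for
all other inputs, is in `#P` and is `#P`-hard under polynomial-time Turing reductions.
(4) The number of connected spanning subgraphs of a finite connected graph is the value of its
Tutte polynomial at `(1, 2)`.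
(5) The graphs of (2) are cographs. -/
theorem result :
    ((∀ f : List Bool → ℕ, SharpP f → FP f) ↔
      ∃ g : List Bool → List Bool, PolyTime g ∧ ∀ A : List (List Bool), IsAdj A →
        IsCograph (gr A) → g (bits A) = (numConn (gr A)).bits) ∧
    ((∀ f : List Bool → ℕ, SharpP f → FP f) ↔
      ∃ g : List Bool → List Bool, PolyTime g ∧ ∀ A : List (List Bool), IsAdj A →
        IsMultiJoin (gr A) → (gr A).Connected → g (bits A) = (tutte (gr A) 1 2).toNat.bits) ∧
    (SharpP (strFn numConnCo) ∧ SharpPHard (strFn numConnCo)) ∧
    (∀ (V : Type) [Finite V] (G : SimpleGraph V), G.Connected → tutte G 1 2 = numConn G) ∧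
    (∀ (V : Type) (G : SimpleGraph V), IsMultiJoin G → IsCograph G) := by
  refine ⟨fp_iff_co, ⟨fun h => ?_, ?_⟩, ⟨mem_sharpP, hard⟩, fun V _ G hG => tutte_one_two hG,
    fun V G hG => isCograph_of_isMultiJoin hG⟩
  · obtain ⟨g, hg, hgA⟩ := fp_iff_co.1 h
    refine ⟨g, hg, fun A h1 h2 h3 => ?_⟩
    rw [hgA A h1 (isCograph_of_isMultiJoin h2), tutte_one_two h3, Int.toNat_natCast]
  · rintro ⟨g, hg, h⟩ f hf
    refine sharpP_le_of_nred nred_sat_mj ⟨g, hg, fun B hB => ?_⟩ f hf
    rw [h B hB.1 hB.2.1 hB.2.2, tutte_one_two hB.2.2, Int.toNat_natCast]

end Pool.Agent.Results.MP_381749_lc.CographConnected
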