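import Pool.Agent.W969.MC.Dnf2

/-!
Counting the models of monotone DNF formulas with relative error `2 ^ (-p)` by randomised monotone
circuits: the size is `2 ^ Θ(p)` up to the exponent `1 - 1/(r+1)` of `p` in the lower bound.

The terms of the formulas are conjunctions of `r` of the `n` variables; the input tells which terms
are present. To compute the number of models exactly is #P-complete already for `r = 2`, while it
can be approximated by random sampling. Here the circuits compute with real numbers; their monotone
gates compute arbitrary nondecreasing real functions of two arguments; and there may also be some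
arbitrary further gates, for instance up to `δ log p` NOT gates. A randomised circuit is a finite
nonempty family of circuits from which one is chosen uniformly at random.

* The relative error `2 ^ (-p)` is achieved by randomised circuits with monotone gates only and with
  `4 ^ (p + 1) 2 ^ r (n ^ r + 1) + 1` gates, with probability `3/4`.
* For all large `p ≤ n` it is not achieved with probability `1/2 + p ^ (-δ)` by randomised circuits
  with fewer than `exp (p ^ (r/(r+1) - ε))` gates and few non-monotone gates. For `p = n` this is
  exact counting.

The proof of the lower bound: an average case version with a gap of the approximation method, for a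
constraint satisfaction problem on a sparse expanding hypergraph. A monotone real circuit of size
`s` cannot tell planted instances from random ones with an advantage larger than
`O(1/q + s (2/q) ^ j)`, where `q` is the size of the alphabet and `j` is proportional to the number
of variables, although in the random instances no assignment satisfies more than half of the
constraints. The numbers of non-models of the corresponding DNF formulas differ by a large factor.
For the non-monotone gates one puts many such instances into one formula, and fills them one after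
the other with random instances; circuits with few non-monotone gates rarely notice the change.
-/

namespace Pool.Agent.Results.MP_381749_lc.DnfPrecision

/-- A real circuit with the input bits `Inp` and the gates `0, ..., s - 1`. Gate `i` has `w i`
inputs, namely `a i j`, each an input bit (`0` or `1`) or an earlier gate, and its value on the
input `x` is `val x i`. The gates outside `T` compute nondecreasing functions of at most two real
numbers. The output of a gate `i` in `T` depends in an arbitrary way on the bits that tell whether
`θ i j` is at most the `j`-th input (a NOT gate, for instance). -/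
structure RealCircuit (Inp : Type) where
  s : ℕ
  T : Finset (Fin s)
  w : Fin s → ℕ
  a : (i : Fin s) → Fin (w i) → Inp ⊕ Fin s
  op : (i : Fin s) → (Fin (w i) → ℝ) → ℝ
  θ : (i : Fin s) → Fin (w i) → ℝ
  val : (Inp → Bool) → Fin s → ℝ
  out : Fin s
  earlier : ∀ i j k, a i j = Sum.inr k → k < i
  mono : ∀ i ∉ T, w i ≤ 2 ∧ Monotone (op i)
  free : ∀ i ∈ T, ∀ z z' : Fin (w i) → ℝ, (∀ j, θ i j ≤ z j ↔ θ i j ≤ z' j) → op i z = op i z'
  spec : ∀ x i, val x i = op i (fun j =>
    Sum.elim (fun p => if x p = true then (1 : ℝ) else 0) (val x) (a i j))

/-- The output: the value of the gate `out`. -/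
def RealCircuit.output {Inp : Type} (C : RealCircuit Inp) (x : Inp → Bool) : ℝ := C.val x C.out

/-- The size: the number of gates plus the number of inputs of the gates in `T`. -/
def RealCircuit.size {Inp : Type} (C : RealCircuit Inp) : ℕ := C.s + ∑ i ∈ C.T, C.w i

/-- The product of the numbers `w i + 1` over the gates in `T`. It is `1` if `T` is empty and
`2 ^ t` if `T` consists of `t` NOT gates. -/
def RealCircuit.freedom {Inp : Type} (C : RealCircuit Inp) : ℕ := ∏ i ∈ C.T, (C.w i + 1)

/-- The terms: the term `e` says that the `r` variables in `e` are true. -/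
abbrev Term (n r : ℕ) : Type := {e : Finset (Fin n) // e.card = r}

/-- The number of assignments that make some term `e` with `x e = true` true. -/
noncomputable def numModels (n r : ℕ) (x : Term n r → Bool) : ℕ :=
  Nat.card {α : Fin n → Bool // ∃ e : Term n r, x e = true ∧ ∀ v ∈ e.1, α v = true}

/-- The probability that the output of a random member of the family `C` is the number of models up
to the relative error `2 ^ (-p)`. -/
noncomputable def accuracy {R : Type} {n r : ℕ} (p : ℕ) (C : R → RealCircuit (Term n r))
    (x : Term n r → Bool) : ℝ :=
  (Nat.card {ρ : R // |(C ρ).output x - (numModels n r x : ℝ)| * 2 ^ p ≤ (numModels n r x : ℝ)} : ℝ) /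
    Nat.card R

/-- Upper bound: for `r ≤ n` and all `p` there is a finite nonempty family of real circuits with
monotone gates only and at most `4 ^ (p + 1) 2 ^ r (n ^ r + 1) + 1` gates that computes the number
of models of all DNF formulas with relative error `2 ^ (-p)` with probability at least `3/4`. Lower
bound: for every `r ≥ 2` and `ε > 0` there is `δ > 0` such that for all large `p` and all `n ≥ p`,
if a finite nonempty family of real circuits whose number `freedom` is at most `p ^ δ` computes it
with relative error `2 ^ (-p)` with probability at least `1/2 + p ^ (-δ)`, then some member has size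
at least `exp (p ^ (r / (r + 1) - ε))`. -/
theorem result (r : ℕ) (ε : ℝ) (hr : 2 ≤ r) (hε : 0 < ε) :
    (∀ n p : ℕ, r ≤ n → ∃ (R : Type) (_ : Finite R) (_ : Nonempty R)
      (C : R → RealCircuit (Term n r)),
      (∀ ρ, (C ρ).T = ∅ ∧ (C ρ).size ≤ 4 ^ (p + 1) * 2 ^ r * (n ^ r + 1) + 1) ∧
      ∀ x, 3 / 4 ≤ accuracy p C x) ∧
    ∃ δ : ℝ, 0 < δ ∧ ∃ p0 : ℕ, ∀ p n : ℕ, p0 ≤ p → p ≤ n → ∀ (R : Type) [Finite R] [Nonempty R]
      (C : R → RealCircuit (Term n r)),
      (∀ x, 1 / 2 + (p : ℝ) ^ (-δ) ≤ accuracy p C x) →
      (∀ ρ, ((C ρ).freedom : ℝ) ≤ (p : ℝ) ^ δ) →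
      ∃ ρ, Real.exp ((p : ℝ) ^ ((r : ℝ) / (r + 1) - ε)) ≤ ((C ρ).size : ℝ) := by
  constructor
  · intro n p hrn
    obtain ⟨R, i1, i2, C, h1, h2⟩ := Pool.Agent.W969.MC.dnf_upper n r p hrn
    refine ⟨R, inferInstance, i2, fun ρ => ⟨(C ρ).S, (C ρ).T, (C ρ).wd, (C ρ).a, (C ρ).op, (C ρ).θ,
      (C ρ).val, (C ρ).o, (C ρ).htop, (C ρ).hmon, (C ρ).hT, (C ρ).hval⟩, h1, ?_⟩
    intro x
    have hR : (0 : ℝ) < Fintype.card R := by exact_mod_cast Fintype.card_pos
    unfold accuracy
    rw [Nat.card_eq_fintype_card (α := R), le_div_iff₀ hR]
    exact h2 x
  · obtain ⟨δ, hδ, p0, H⟩ := Pool.Agent.W969.MC.dnf_rand r hr ε hε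
    refine ⟨δ, hδ, p0, ?_⟩
    intro p n hp hpn R _ _ C h1 h2
    let _ : Fintype R := Fintype.ofFinite R
    have hR : (0 : ℝ) < Fintype.card R := by exact_mod_cast Fintype.card_pos
    refine H p n hp hpn R (fun ρ => ⟨(C ρ).s, (C ρ).T, (C ρ).w, (C ρ).a, (C ρ).op, (C ρ).θ,
      (C ρ).val, (C ρ).out, 0, (C ρ).earlier, (C ρ).mono, (C ρ).free, (C ρ).spec⟩) ?_ h2
    intro x
    have h3 := h1 x
    unfold accuracy at h3
    rw [Nat.card_eq_fintype_card (α := R), le_div_iff₀ hR] at h3
    exact h3

end Pool.Agent.Results.MP_381749_lc.DnfPrecision
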