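import Pool.Agent.W896.FD.PC

/-!
# The number of perfect matchings and circuits of small formal degree

`#P` is contained in `FP` if and only if the number of perfect matchings of a graph can be computed
in polynomial time (Valiant). We prove that circuits of small formal degree learn nothing about this
number: they cannot even distinguish the graphs without perfect matching from the graphs with
exactly one perfect matching.

A Boolean circuit with AND gates of fan-in two, OR gates of any fan-in and negations at the inputs
accepts if and only if it has a proof tree all of whose leaves are true literals; the formal degree
in an input bit is the largest number of leaves with this bit. (Circuits of polynomial size and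
polynomial total degree are non-uniform LOGCFL, that is, non-uniform nondeterministic machines with
logarithmic memory, a stack and polynomial time; the circuits of degree one in every bit are the
decomposable ones, DNNFs, and a nondeterministic syntactic read-`k` branching program is a circuit
of degree at most `k` in every bit.)

The input consists of the bits of a graph with `n` vertices, `n` even. Let a finite family of
circuits accept no graph without perfect matching, and let it accept each graph with exactly one
perfect matching with probability at least `2 ^ (- n / 2 ^ (60 (k + 1)))` (over a random circuit of
the family). If the formal degrees of each circuit sum up to at most `k n ^ 2` then some circuit of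
the family has size at least `2 ^ (n / 2 ^ (60 (k + 1)) - 1)`. In particular this holds for
circuits which decide whether the number `N` of perfect matchings has a property `F` with
`F 1` and not `F 0`: `N` odd, `N` not divisible by `m`, `N = 1`, `N > 0`, and so on; so the numbers
cannot be computed (nor approximated up to any factor) by small circuits of this kind.

Proof. The graphs are disjoint unions of paths with six vertices. In each path there are two pairs
of vertices such that the graph remains (up to isomorphism) the same if the second pair is joined
instead of the first. If the states of the pairs do not fit there are two leaves with a common
neighbour, so there is no perfect matching. The counting is that of our result on graph isomorphism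
(`Pool.Agent.W896.FD.moment`, `Pool.Agent.W896.FD.count`).
-/

set_option autoImplicit false

namespace Pool.Agent.Results.MP_381749_lc.FormalDegree

open Pool.Agent.W896.RK Pool.Agent.W896.FD

/-- Let `n` be even and let `U r` be a finite nonempty family of circuits with the bits of a graph
on `n` vertices as inputs such that no circuit of the family accepts a graph without perfect
matching, and such that every graph with exactly one perfect matching is accepted by at least a
`2 ^ (- ⌊n / 2 ^ (60 (k + 1))⌋)` fraction of the circuits. If in every circuit of the family the
sum of the formal degrees in all bits is at most `k n ^ 2` then, for some circuit of the family,
`n ≤ 2 ^ (60 (k + 1)) (⌊log₂ g⌋ + 1)`, where `g` is its number of gates. -/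
theorem result (k n : ℕ) (hn : Even n) (R : Type) [Fintype R] [Nonempty R]
    (U : R → Circ (Sym2 (Fin n)))
    (hU : ∀ r (G : SimpleGraph (Fin n)), (U r).Val (bits G) (U r).out → numPM G ≠ 0)
    (hc : ∀ G : SimpleGraph (Fin n), numPM G = 1 →
      Nat.card R ≤ 2 ^ (n / 2 ^ (60 * (k + 1))) * Nat.card {r // (U r).Val (bits G) (U r).out})
    (hd : ∀ r, ∃ d : (U r).G → Sym2 (Fin n) → ℕ, IsDeg (U r) id d ∧
      ∑ e, d (U r).out e ≤ k * n ^ 2) :
    ∃ r, n ≤ 2 ^ (60 * (k + 1)) * (Nat.log 2 (Fintype.card (U r).G) + 1) :=
  count_final k n hn R U hU hc hd

end Pool.Agent.Results.MP_381749_lc.FormalDegree
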