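import Pool.Agent.W887.LE.Final

/-!
# MP_381749_lc: linear extensions of interval orders and of N-free posets

Counting the linear extensions of a finite poset is `#P`-complete already for the posets that are
at the same time interval orders, `N`-free, and lattices.

The classes `SharpP` and `FP`, Turing reductions and `SharpPHard` are defined in
`Pool/Agent/H527R2/SharpP.lean`, `PolyTime` (Mathlib Turing machines) and the bit code `bits` in
`Pool/Agent/NPC/Defs.lean`; `rel`, `IsIntervalOrder`, `NFree`, `IsLatticeRel` and `numLE` are in
`Pool/Agent/W887/LE/Model.lean`, `Good` in `Pool/Agent/W887/LE/Class.lean`, `numLEOn` in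
`Pool/Agent/W887/LE/Final.lean`.
-/

namespace Pool.Agent.Results.MP_381749_lc.IntervalOrders

open Pool.Agent.NPC Pool.Agent.NPC.Cnt Pool.Agent.W887.LE Pool.Agent.NPC.LE887

/-- **Counting the linear extensions of `N`-free interval orders that are lattices is
`#P`-complete.** A poset on `{0, …, n-1}` is given by the `n × n` matrix of its strict relation.
(1) For every class `C` of matrices that contains the matrices of all posets that are at once
interval orders, `N`-free (in the strong sense that the Hasse diagram has no zigzag with three
edges) and lattices (for example the class of all interval orders, of all `N`-free posets, of all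
lattices): `#P ⊆ FP` iff some polynomial-time function computes the number of linear extensions of
every poset in `C`.
(2) For every such `C`, the function with value the number of linear extensions on `C`, and `0` for
all other inputs, is `#P`-hard under polynomial-time Turing reductions.
(3) It is in `#P` for the smallest such class, for the class of all interval orders, and for the
class of all inputs. -/
theorem result :
    (∀ C : List (List Bool) → Prop, (∀ A, Good A → C A) →
      (((∀ f : List Bool → ℕ, SharpP f → FP f) ↔
        ∃ g : List Bool → List Bool, PolyTime g ∧
          ∀ A : List (List Bool), C A → g (bits A) = (numLE A).bits) ∧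
      SharpPHard (strFn (numLEOn C)))) ∧
    SharpP (strFn (numLEOn Good)) ∧
    SharpP (strFn (numLEOn fun A =>
      (∀ r ∈ A, r.length = A.length) ∧ IsIntervalOrder (rel A))) ∧
    SharpP (strFn numLE) :=
  ⟨fun C hC => ⟨fp_iff C hC, hard C hC⟩, mem_good, mem_interval_orders, mem_all⟩

end Pool.Agent.Results.MP_381749_lc.IntervalOrders
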