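import Pool.Agent.W933.DD.Conn

set_option autoImplicit false

/-!
A real arithmetic circuit, multilinear in the edges of a matching, which computes two-terminal
connectivity on Boolean inputs has exponential size or exponential cancellation.
-/

namespace Pool.Agent.Results.MP_381749_lc.ZReliabilityCancellation

open Pool.Agent.W933.DD

open Classical in
theorem result (M s : ℕ) (hM : 1 ≤ M) (C : ACirc (4 * M) s (Sym2 (VC M) → Bool)) (out : Fin s)
    (B : ℝ)
    (hval : ∀ (x : Fin (4 * M) → Bool) (w : Sym2 (VC M) → Bool), C.val out x w =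
      if (graphOf x w).Reachable (src M) (trg M) then 1 else 0)
    (habs : ∀ (x : Fin (4 * M) → Bool) (w : Sym2 (VC M) → Bool), C.abs out x w ≤ B) :
    (225 : ℝ) ^ M ≤ 4 * (s * B) ^ 2 * ((4 * M + 1) * 217 ^ M) :=
  conn_arith hM C out B hval habs

end Pool.Agent.Results.MP_381749_lc.ZReliabilityCancellation
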