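import Pool.Agent.W933.DD.Conn

set_option autoImplicit false

/-!
Circuits for two-terminal connectivity in which the conjunctions are decomposable with respect to
the edges of a matching and the disjunctions are deterministic have exponential size or
exponentially many chains of wide negations.
-/

namespace Pool.Agent.Results.MP_381749_lc.ZReliabilityNegations

open Pool.Agent.W933.DD

theorem result (M s : ℕ) (hM : 1 ≤ M)
    (C : Circ (4 * M) s (Sym2 (VC M) → Bool)) (d : Fin s → ℕ) (hd : C.NegDepth d)
    (out : Fin s)
    (h : ∀ (x : Fin (4 * M) → Bool) (w : Sym2 (VC M) → Bool),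
      C.val out x w = true ↔ (graphOf x w).Reachable (src M) (trg M)) :
    225 ^ M ≤ 4 * (s * ∑ j ∈ Finset.range (d out + 1), C.nots.card.choose j) ^ 2 *
      ((4 * M + 1) * 217 ^ M) :=
  conn_bound hM C d hd out h

end Pool.Agent.Results.MP_381749_lc.ZReliabilityNegations
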